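import Mathlib

set_option autoImplicit false

namespace Pool.Agent.H.MP_714461_an

open Set Filter Topology
open scoped ENNReal

abbrev H := lp (fun _ : ℝ => ℝ) 2

noncomputable def co (g : ℝ → ℝ) (h0 : g 0 = 0) (hg : ∀ s t, |g s - g t| ≤ 2 * |s - t|) (x : H) :
    H :=
  ⟨fun i => g (x i), ((lp.memℓp x).const_smul (2 : ℝ)).mono' fun i => by
    simpa [h0] using hg (x i) 0⟩

theorem co_lip (g : ℝ → ℝ) (h0 : g 0 = 0) (hg : ∀ s t, |g s - g t| ≤ 2 * |s - t|) :
    LipschitzWith 2 (co g h0 hg) := by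
  refine LipschitzWith.of_dist_le_mul fun x y => ?_
  rw [dist_eq_norm, dist_eq_norm]
  have : ‖(2 : ℝ) • (x - y)‖ = (2 : NNReal) * ‖x - y‖ := by rw [norm_smul]; simp
  rw [← this]
  refine lp.norm_mono (by norm_num) fun i => ?_
  simpa [co] using hg (x i) (y i)

noncomputable def g1 (t : ℝ) : ℝ := min t (2 * t)

noncomputable def g2 (t : ℝ) : ℝ := max t (t / 2)

theorem g1_lip (s t : ℝ) : |g1 s - g1 t| ≤ 2 * |s - t| := by
  unfold g1
  rcases abs_cases (s - t) with h | h <;> rw [abs_le, min_def, min_def] <;> split_ifs <;>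
    constructor <;> linarith [h.1, h.2]

theorem g2_lip (s t : ℝ) : |g2 s - g2 t| ≤ 2 * |s - t| := by
  unfold g2
  rcases abs_cases (s - t) with h | h <;> rw [abs_le, max_def, max_def] <;> split_ifs <;>
    constructor <;> linarith [h.1, h.2]

noncomputable def φ : H ≃ H where
  toFun := co g1 (by simp [g1]) g1_lip
  invFun := co g2 (by simp [g2]) g2_lip
  left_inv x := lp.ext (funext fun i => by
    change g2 (g1 (x i)) = x i
    unfold g1 g2
    rw [min_def, max_def]; split_ifs <;> linarith)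
  right_inv x := lp.ext (funext fun i => by
    change g1 (g2 (x i)) = x i
    unfold g1 g2
    rw [max_def, min_def]; split_ifs <;> linarith)

theorem exists_zero (x : H) : ∃ i, x i = 0 := by
  by_contra h
  push Not at h
  have h1 := ((lp.memℓp x).summable (by norm_num)).countable_support
  refine Cardinal.not_countable_real (h1.mono fun i _ => ?_)
  simpa using h i

theorem not_sep : ¬ TopologicalSpace.SeparableSpace H := by
  classical
  intro h
  have h1 : Pairwise fun i j : ℝ => Disjoint (Metric.ball (lp.single 2 i (1 : ℝ) : H) (1 / 2))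
      (Metric.ball (lp.single 2 j (1 : ℝ) : H) (1 / 2)) := by
    intro i j hij
    refine Metric.ball_disjoint_ball ?_
    have := lp.norm_apply_le_norm (by norm_num) ((lp.single 2 i (1 : ℝ) : H) - lp.single 2 j 1) i
    rw [dist_eq_norm]
    norm_num
    simpa [lp.single_apply, hij] using this
  have := h1.countable_of_isOpen_disjoint (fun _ => Metric.isOpen_ball)
    fun _ => Metric.nonempty_ball.2 (by norm_num)
  exact Cardinal.not_countable_real countable_univ

theorem not_gat (x : H) : ¬ ∃ T : H →L[ℝ] H, ∀ h : H,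
    Tendsto (fun t : ℝ => t⁻¹ • (φ (x + t • h) - φ x)) (𝓝[≠] 0) (𝓝 (T h)) := by
  classical
  rintro ⟨T, hT⟩
  obtain ⟨i, hi⟩ := exists_zero x
  have h1 := ((lp.evalCLM ℝ (fun _ : ℝ => ℝ) 2 i).continuous.tendsto _).comp (hT (lp.single 2 i 1))
  have e : ∀ t : ℝ, (lp.evalCLM ℝ (fun _ : ℝ => ℝ) 2 i)
      (t⁻¹ • (φ (x + t • lp.single 2 i 1) - φ x)) = t⁻¹ * g1 t := fun t => by
    change t⁻¹ * (g1 (x i + t * (lp.single 2 i (1 : ℝ) : H) i) - g1 (x i)) = _
    simp [hi, g1]
  have h2 : Tendsto (fun _ : ℝ => (1 : ℝ)) (𝓝[>] 0) _ :=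
    (h1.mono_left (nhdsGT_le_nhdsNE 0)).congr' (by
      filter_upwards [self_mem_nhdsWithin] with t (ht : 0 < t)
      rw [Function.comp, e, g1, min_eq_left (by linarith), inv_mul_cancel₀ ht.ne'])
  have h3 : Tendsto (fun _ : ℝ => (2 : ℝ)) (𝓝[<] 0) _ :=
    (h1.mono_left (nhdsLT_le_nhdsNE 0)).congr' (by
      filter_upwards [self_mem_nhdsWithin] with t (ht : t < 0)
      rw [Function.comp, e, g1, min_eq_right (by linarith)]
      field_simp [ht.ne])
  have h4 := (tendsto_nhds_unique tendsto_const_nhds h2).trans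
    (tendsto_nhds_unique tendsto_const_nhds h3).symm
  norm_num at h4

theorem refl : Function.Surjective (NormedSpace.inclusionInDoubleDual ℝ H) := by
  intro F
  refine ⟨(InnerProductSpace.toDual ℝ H).symm
    (F.comp (InnerProductSpace.toDual ℝ H).toContinuousLinearEquiv.toContinuousLinearMap), ?_⟩
  ext f
  obtain ⟨y, rfl⟩ := (InnerProductSpace.toDual ℝ H).surjective f
  rw [NormedSpace.dual_def, InnerProductSpace.toDual_apply_apply, real_inner_comm,
    InnerProductSpace.toDual_symm_apply]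
  rfl

end Pool.Agent.H.MP_714461_an
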